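import Mathlib
import Pool.Agent.X215.StatFilters

/-!
A free filter on the natural numbers which is not conglomerated and is not generated by a
statistical measure.
-/

namespace Pool.Agent.Results.MP_aa1901_an.NotConglomerated

open Pool.Agent.X215.StatFilters

/-- There is a free filter on `ℕ` that is not conglomerated and is not generated by any
statistical measure. -/
theorem result : ∃ 𝔉 : Filter ℕ, IsFree 𝔉 ∧ ¬ Conglomerated 𝔉 ∧ ¬ GeneratedByMeasure 𝔉 :=
  ⟨fil, isFree_fil, not_conglomerated_of_poor poor_fil, not_generated⟩

end Pool.Agent.Results.MP_aa1901_an.NotConglomerated
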